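import Pool.Agent.N684.BK.Stm

/-!
# Project BK (helper684): rational points and algebraic coordinates
-/

set_option autoImplicit false

namespace Pool.Agent.N738.BK.RAT

open MvPolynomial
open Pool.Agent.N684.BK

theorem RAT : S_RAT := by
  intro F _ N P y a hP hV hal
  have : IsDomain (MvPolynomial (Fin N) F ⧸ P) := Ideal.Quotient.isDomain P
  set x := Ideal.Quotient.mk P (X a) with hx
  have hint : IsIntegral F x := hal.isIntegral
  have hirr := minpoly.irreducible hint
  have h1 : Polynomial.aeval (X a : MvPolynomial (Fin N) F) (minpoly F x) ∈ P := by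
    rw [← Ideal.Quotient.eq_zero_iff_mem]
    have e : Ideal.Quotient.mk P (Polynomial.aeval (X a : MvPolynomial (Fin N) F) (minpoly F x)) =
        Polynomial.aeval x (minpoly F x) := by
      have := (Polynomial.aeval_algHom_apply (Ideal.Quotient.mkₐ F P)
        (X a : MvPolynomial (Fin N) F) (minpoly F x)).symm
      exact this
    rw [e, minpoly.aeval]
  have h2 := hV _ h1
  have h3 : (minpoly F x).eval (y a) = 0 := by
    rw [← h2]
    have := (Polynomial.aeval_algHom_apply (aeval y : MvPolynomial (Fin N) F →ₐ[F] F)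
        (X a : MvPolynomial (Fin N) F) (minpoly F x))
    rw [aeval_X, Polynomial.coe_aeval_eq_eval] at this
    rw [this]
    exact DFunLike.congr_fun (MvPolynomial.coe_aeval_eq_eval y) _
  have h4 : (Polynomial.X - Polynomial.C (y a)) ∣ minpoly F x := Polynomial.dvd_iff_isRoot.mpr h3
  have h5 : Associated (Polynomial.X - Polynomial.C (y a)) (minpoly F x) :=
    (Polynomial.irreducible_X_sub_C (y a)).associated_of_dvd hirr h4
  have h6 : Polynomial.X - Polynomial.C (y a) = minpoly F x :=
    Polynomial.eq_of_monic_of_associated (Polynomial.monic_X_sub_C _) (minpoly.monic hint) h5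
  have h7 : Polynomial.aeval x (Polynomial.X - Polynomial.C (y a)) = 0 := by
    rw [h6, minpoly.aeval]
  rw [map_sub, Polynomial.aeval_X, Polynomial.aeval_C] at h7
  rw [← Ideal.Quotient.eq_zero_iff_mem, map_sub]
  exact h7

theorem PT : S_PT := by
  intro F _ N P y y' hP hd hV hV'
  have : IsDomain (MvPolynomial (Fin N) F ⧸ P) := Ideal.Quotient.isDomain P
  have h0 : Algebra.trdeg F (MvPolynomial (Fin N) F ⧸ P) = 0 := by
    rcases Cardinal.toNat_eq_zero.mp hd with h | h
    · exact h
    · exact absurd (trdeg_lt_aleph0_of_finiteType (R := F)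
        (S := MvPolynomial (Fin N) F ⧸ P)) (not_lt.mpr h)
  have halg : Algebra.IsAlgebraic F (MvPolynomial (Fin N) F ⧸ P) := trdeg_eq_zero_iff.mp h0
  funext a
  have h1 := RAT F N P y a hP hV (Algebra.IsAlgebraic.isAlgebraic _)
  have h2 := hV' _ h1
  rw [map_sub, eval_X, eval_C] at h2
  exact (sub_eq_zero.mp h2).symm

end Pool.Agent.N738.BK.RAT
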